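import Pool.Agent.H621R2.Fd.Mem

/-!
# Faithful drawings of prisms

The prism over an edge-coloured graph: two copies joined by a perfect matching whose edges have
private colours.
-/

set_option autoImplicit false

namespace Pool.Agent.Y376.FA

open Pool.Agent.H621R2 Pool.Agent.NPC Pool.Agent.H621R2.Fd

/-- The vertices, each listed once. -/
def vl (G : CG) : List ℕ :=
  ((vlist G).zipIdx.filter (fun p => !((vlist G).zipIdx.any
    (fun q => decide (q.1 = p.1) && decide (q.2 < p.2))))).map Prod.fst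

theorem zipIdx_nodup {α : Type} (l : List α) : l.zipIdx.Nodup := by
  have : (l.zipIdx.map Prod.snd).Nodup := by
    rw [List.zipIdx_map_snd]
    exact List.nodup_range' ..
  exact List.Nodup.of_map _ this

theorem filt_iff {l : List ℕ} {p : ℕ × ℕ} :
    (!(l.zipIdx.any (fun q => decide (q.1 = p.1) && decide (q.2 < p.2)))) = true ↔
      ∀ q ∈ l.zipIdx, q.1 = p.1 → ¬ q.2 < p.2 := by
  rw [Bool.not_eq_true', ← Bool.not_eq_true, List.any_eq_true]
  constructor
  · intro h q hq h1 h2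
    exact h ⟨q, hq, by simp [h1, h2]⟩
  · rintro h ⟨q, hq, h'⟩
    rw [Bool.and_eq_true, decide_eq_true_eq, decide_eq_true_eq] at h'
    exact h q hq h'.1 h'.2

theorem vl_nodup (G : CG) : (vl G).Nodup := by
  unfold vl
  refine List.Nodup.map_on ?_ ((zipIdx_nodup _).filter _)
  intro x hx y hy hxy
  rw [List.mem_filter, filt_iff] at hx hy
  rcases lt_trichotomy x.2 y.2 with h | h | h
  · exact absurd h (hy.2 x hx.1 hxy)
  · exact Prod.ext hxy h
  · exact absurd h (hx.2 y hy.1 hxy.symm)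

theorem mem_vl {G : CG} {v : ℕ} : v ∈ vl G ↔ v ∈ vlist G := by
  unfold vl
  rw [List.mem_map]
  constructor
  · rintro ⟨p, hp, rfl⟩
    exact List.fst_mem_of_mem_zipIdx (List.mem_filter.1 hp).1
  · intro hv
    classical
    have hex : ∃ i, (v, i) ∈ (vlist G).zipIdx := mem_zipIdx_of_mem hv 0
    refine ⟨(v, Nat.find hex), ?_, rfl⟩
    rw [List.mem_filter, filt_iff]
    refine ⟨Nat.find_spec hex, fun q hq h1 h2 => ?_⟩
    refine Nat.find_min hex h2 ?_
    have : q = (v, q.2) := Prod.ext h1 rfl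
    rwa [this] at hq

def e0 (e : ℕ × ℕ × ℕ) : ℕ × ℕ × ℕ := (2 * e.1, 2 * e.2.1, 3 * e.2.2)

def e1 (e : ℕ × ℕ × ℕ) : ℕ × ℕ × ℕ := (2 * e.1 + 1, 2 * e.2.1 + 1, 3 * e.2.2 + 1)

def e2 (v : ℕ) : ℕ × ℕ × ℕ := (2 * v, 2 * v + 1, 3 * v + 2)

/-- The prism. -/
def prism (G : CG) : CG := G.map e0 ++ (G.map e1 ++ (vl G).map e2)

theorem mem_prism {G : CG} {e : ℕ × ℕ × ℕ} : e ∈ prism G ↔
    (∃ a ∈ G, e0 a = e) ∨ (∃ a ∈ G, e1 a = e) ∨ (∃ v ∈ vlist G, e2 v = e) := by
  unfold prism
  simp only [List.mem_append, List.mem_map, mem_vl]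

theorem e0_inj {a b : ℕ × ℕ × ℕ} (h : e0 a = e0 b) : a = b := by
  obtain ⟨a1, a2, a3⟩ := a
  obtain ⟨b1, b2, b3⟩ := b
  simp only [e0, Prod.mk.injEq] at h ⊢
  omega

theorem e1_inj {a b : ℕ × ℕ × ℕ} (h : e1 a = e1 b) : a = b := by
  obtain ⟨a1, a2, a3⟩ := a
  obtain ⟨b1, b2, b3⟩ := b
  simp only [e1, Prod.mk.injEq] at h ⊢
  omega

theorem val_prism {G : CG} (h : Val G) : Val (prism G) := by
  obtain ⟨h1, h2, h3⟩ := h
  refine ⟨?_, ?_, ?_⟩
  · intro e he
    rcases mem_prism.1 he with ⟨a, ha, rfl⟩ | ⟨a, ha, rfl⟩ | ⟨v, hv, rfl⟩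
    · have := h1 a ha
      simp only [e0]; omega
    · have := h1 a ha
      simp only [e1]; omega
    · simp only [e2]; omega
  · unfold prism
    rw [List.map_append, List.map_append, List.map_map, List.map_map, List.map_map]
    have i0 : Function.Injective (fun n : ℕ => 2 * n) := fun a b h => by simp only at h; omega
    have i1 : Function.Injective (fun n : ℕ => 2 * n + 1) := fun a b h => by simp only at h; omega
    have n0 : (G.map (ends ∘ e0)).Nodup := by
      have : G.map (ends ∘ e0) = (G.map ends).map (Sym2.map (fun n => 2 * n)) := by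
        rw [List.map_map]; rfl
      rw [this]
      exact h2.map (Sym2.map.injective i0)
    have n1 : (G.map (ends ∘ e1)).Nodup := by
      have : G.map (ends ∘ e1) = (G.map ends).map (Sym2.map (fun n => 2 * n + 1)) := by
        rw [List.map_map]; rfl
      rw [this]
      exact h2.map (Sym2.map.injective i1)
    have n2 : ((vl G).map (ends ∘ e2)).Nodup := by
      refine (vl_nodup G).map ?_
      intro a b hab
      simp only [Function.comp, ends, e2, Sym2.eq_iff] at hab
      omega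
    refine n0.append (n1.append n2 ?_) ?_
    · intro x hx hx'
      rw [List.mem_map] at hx hx'
      obtain ⟨a, _, rfl⟩ := hx
      obtain ⟨v, _, hv⟩ := hx'
      simp only [Function.comp, ends, e2, e1, Sym2.eq_iff] at hv
      omega
    · intro x hx hx'
      rw [List.mem_append, List.mem_map, List.mem_map] at hx'
      rw [List.mem_map] at hx
      obtain ⟨a, _, rfl⟩ := hx
      rcases hx' with ⟨v, _, hv⟩ | ⟨v, _, hv⟩
      · simp only [Function.comp, ends, e1, e0, Sym2.eq_iff] at hv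
        omega
      · simp only [Function.comp, ends, e2, e0, Sym2.eq_iff] at hv
        omega
  · intro e he f hf hne hv
    rcases mem_prism.1 he with ⟨a, ha, rfl⟩ | ⟨a, ha, rfl⟩ | ⟨a, ha, rfl⟩ <;>
      rcases mem_prism.1 hf with ⟨b, hb, rfl⟩ | ⟨b, hb, rfl⟩ | ⟨b, hb, rfl⟩
    · have hab : a ≠ b := fun e => hne (by rw [e])
      have := h3 a ha b hb hab (by simp only [e0] at hv; omega)
      simp only [e0]; omega
    · simp only [e0, e1] at hv ⊢; omega
    · simp only [e0, e2] at hv ⊢; omega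
    · simp only [e0, e1] at hv ⊢; omega
    · have hab : a ≠ b := fun e => hne (by rw [e])
      have := h3 a ha b hb hab (by simp only [e1] at hv; omega)
      simp only [e1]; omega
    · simp only [e1, e2] at hv ⊢; omega
    · simp only [e0, e2] at hv ⊢; omega
    · simp only [e1, e2] at hv ⊢; omega
    · have hab : a ≠ b := fun e => hne (by rw [e])
      simp only [e2]; omega

theorem deg_map {G : CG} {f : ℕ × ℕ × ℕ → ℕ × ℕ × ℕ} {v w : ℕ}
    (h : ∀ e : ℕ × ℕ × ℕ, ((f e).1 = w ∨ (f e).2.1 = w) ↔ (e.1 = v ∨ e.2.1 = v)) :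
    deg (G.map f) w = deg G v := by
  unfold deg
  rw [List.filter_map, List.length_map]
  congr 1
  refine List.filter_congr fun e _ => ?_
  simp only [Function.comp]
  rw [decide_eq_decide]
  exact h e

theorem deg_e2 {G : CG} {v w : ℕ} (hv : v ∈ vlist G) (hw : w = 2 * v ∨ w = 2 * v + 1) :
    deg ((vl G).map e2) w = 1 := by
  unfold deg
  rw [List.filter_map, List.length_map]
  have : (vl G).filter ((fun e : ℕ × ℕ × ℕ => decide (e.1 = w ∨ e.2.1 = w)) ∘ e2) =
      (vl G).filter (fun x => decide (x = v)) := by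
    refine List.filter_congr fun x _ => ?_
    simp only [Function.comp, e2]
    rw [decide_eq_decide]
    omega
  rw [this]
  have h1 : (vl G).filter (fun x => decide (x = v)) = [v] := by
    have h2 := List.Nodup.filter (fun x => decide (x = v)) (vl_nodup G)
    have h3 : v ∈ (vl G).filter (fun x => decide (x = v)) := by
      rw [List.mem_filter]
      exact ⟨mem_vl.2 hv, by simp⟩
    have h4 : ∀ x ∈ (vl G).filter (fun x => decide (x = v)), x = v := by
      intro x hx
      rw [List.mem_filter] at hx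
      simpa using hx.2
    generalize (vl G).filter (fun x => decide (x = v)) = l at h2 h3 h4
    match l, h2, h3, h4 with
    | [], _, h3, _ => exact absurd h3 (by simp)
    | [x], _, _, h4 => rw [h4 x (by simp)]
    | x :: y :: l, h2, _, h4 =>
      have h5 := h4 x (by simp)
      have h6 := h4 y (by simp)
      rw [h5, h6] at h2
      simp at h2
  rw [h1]
  rfl

theorem reg_prism {k : ℕ} {G : CG} (h : Reg k G) : Reg (k + 1) (prism G) := by
  have key : ∀ v w, v ∈ vlist G → (w = 2 * v ∨ w = 2 * v + 1) → deg (prism G) w = k + 1 := by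
    intro v w hv hw
    have hk : deg G v = k := h v (mem_vlist.1 hv)
    unfold prism
    rw [deg_append, deg_append, deg_e2 hv hw]
    rcases hw with rfl | rfl
    · rw [deg_map (f := e0) (v := v) (fun e => by simp only [e0]; omega), hk,
        deg_eq_zero (G := G.map e1) (fun e he => by
          rw [List.mem_map] at he
          obtain ⟨a, _, rfl⟩ := he
          simp only [e1]; omega)]
    · rw [deg_map (f := e1) (v := v) (fun e => by simp only [e1]; omega), hk,
        deg_eq_zero (G := G.map e0) (fun e he => by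
          rw [List.mem_map] at he
          obtain ⟨a, _, rfl⟩ := he
          simp only [e0]; omega)]
      omega
  rintro w ⟨e, he, hw⟩
  rcases mem_prism.1 he with ⟨a, ha, rfl⟩ | ⟨a, ha, rfl⟩ | ⟨v, hv, rfl⟩
  · rcases hw with rfl | rfl
    · exact key a.1 _ (mem_vlist.2 ⟨a, ha, Or.inl rfl⟩) (Or.inl rfl)
    · exact key a.2.1 _ (mem_vlist.2 ⟨a, ha, Or.inr rfl⟩) (Or.inl rfl)
  · rcases hw with rfl | rfl
    · exact key a.1 _ (mem_vlist.2 ⟨a, ha, Or.inl rfl⟩) (Or.inr rfl)
    · exact key a.2.1 _ (mem_vlist.2 ⟨a, ha, Or.inr rfl⟩) (Or.inr rfl)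
  · rcases hw with rfl | rfl
    · exact key v _ hv (Or.inl rfl)
    · exact key v _ hv (Or.inr rfl)

theorem poly_prism {α : Type} [TEnc α] {G : α → CG} (hG : Poly G) :
    Poly (fun a => prism (G a)) := by
  have h : Poly (fun G : CG => prism G) := by
    unfold prism vl vlist e0 e1 e2
    fun_prop
  exact h.comp hG

/-! ### Drawings -/

/-- A finite number of conditions on a point of the parabola. -/
theorem exists_generic (L : List (Pt × Pt)) (h : ∀ q ∈ L, q.2 ≠ 0) :
    ∃ w : Pt, ∀ q ∈ L, cr (w - q.1) q.2 ≠ 0 := by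
  have h1 : ∀ᶠ t : ℝ in Filter.cofinite, ∀ q ∈ L.toFinset, cr ((t, t ^ 2) - q.1) q.2 ≠ 0 := by
    rw [Filter.eventually_all_finset]
    intro q hq
    exact cr_gen q.1 q.2 (h q (List.mem_toFinset.1 hq))
  obtain ⟨t, ht⟩ := h1.exists
  exact ⟨(t, t ^ 2), fun q hq => ht q (List.mem_toFinset.2 hq)⟩

theorem fd_of_prism {G : CG} (h : ∃ p P, FD (prism G) p P) : ∃ p P, FD G p P := by
  obtain ⟨p, P, h1, h2, h3⟩ := h
  have m0 : ∀ e ∈ G, e0 e ∈ prism G := fun e he => mem_prism.2 (Or.inl ⟨e, he, rfl⟩)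
  refine ⟨fun v => p (2 * v), fun c => P (3 * c), ?_, ?_, ?_⟩
  · intro u hu v hv huv
    have hu' : 2 * u ∈ V (prism G) := by
      obtain ⟨e, he, h | h⟩ := hu
      · exact ⟨e0 e, m0 e he, Or.inl (by rw [← h]; rfl)⟩
      · exact ⟨e0 e, m0 e he, Or.inr (by rw [← h]; rfl)⟩
    have hv' : 2 * v ∈ V (prism G) := by
      obtain ⟨e, he, h | h⟩ := hv
      · exact ⟨e0 e, m0 e he, Or.inl (by rw [← h]; rfl)⟩
      · exact ⟨e0 e, m0 e he, Or.inr (by rw [← h]; rfl)⟩
    have := h1 hu' hv' huv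
    omega
  · intro e he
    exact h2 _ (m0 e he)
  · intro e he f hf hef
    exact h3 _ (m0 e he) _ (m0 f hf) (fun h => hef (e0_inj h))

theorem fd_prism {G : CG} (hG : Val G) (h : ∃ p P, FD G p P) : ∃ p P, FD (prism G) p P := by
  obtain ⟨p, P, h1, h2, h3⟩ := h
  have hne : ∀ e ∈ G, p e.1 ≠ p e.2.1 := fun e he h' =>
    hG.1 e he (h1 ⟨e, he, Or.inl rfl⟩ ⟨e, he, Or.inr rfl⟩ h')
  have hV : ∀ v, v ∈ vlist G ↔ v ∈ V G := fun v => mem_vlist
  -- the conditions
  let L1 : List (Pt × Pt) := (vlist G).flatMap fun u => ((vlist G).filter (fun v => v ≠ u)).map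
    fun v => ((0 : Pt), p u - p v)
  let L2 : List (Pt × Pt) := G.flatMap fun e => (vlist G).map fun x => (p x - p e.1, p e.2.1 - p e.1)
  let L3 : List (Pt × Pt) := G.flatMap fun e => (vlist G).map fun x => (p e.1 - p x, p e.2.1 - p e.1)
  obtain ⟨w, hw⟩ := exists_generic (L1 ++ (L2 ++ L3)) (by
    intro q hq
    rw [List.mem_append, List.mem_append] at hq
    rcases hq with hq | hq | hq
    · obtain ⟨u, hu, hq⟩ := List.mem_flatMap.1 hq
      obtain ⟨v, hv, rfl⟩ := List.mem_map.1 hq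
      rw [List.mem_filter, decide_eq_true_eq] at hv
      intro h0
      exact hv.2 (h1 ((hV v).1 hv.1) ((hV u).1 hu) (sub_eq_zero.1 h0).symm)
    · obtain ⟨e, he, hq⟩ := List.mem_flatMap.1 hq
      obtain ⟨x, hx, rfl⟩ := List.mem_map.1 hq
      intro h0
      exact hne e he (sub_eq_zero.1 h0).symm
    · obtain ⟨e, he, hq⟩ := List.mem_flatMap.1 hq
      obtain ⟨x, hx, rfl⟩ := List.mem_map.1 hq
      intro h0
      exact hne e he (sub_eq_zero.1 h0).symm)
  have c1 : ∀ u ∈ vlist G, ∀ v ∈ vlist G, v ≠ u → cr (w - 0) (p u - p v) ≠ 0 := by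
    intro u hu v hv hvu
    refine hw ((0 : Pt), p u - p v) (List.mem_append.2 (Or.inl (List.mem_flatMap.2 ⟨u, hu,
      List.mem_map.2 ⟨v, List.mem_filter.2 ⟨hv, by simpa using hvu⟩, rfl⟩⟩)))
  have c2 : ∀ e ∈ G, ∀ x ∈ vlist G, cr (w - (p x - p e.1)) (p e.2.1 - p e.1) ≠ 0 := by
    intro e he x hx
    exact hw (p x - p e.1, p e.2.1 - p e.1) (List.mem_append.2 (Or.inr (List.mem_append.2
      (Or.inl (List.mem_flatMap.2 ⟨e, he, List.mem_map.2 ⟨x, hx, rfl⟩⟩)))))
  have c3 : ∀ e ∈ G, ∀ x ∈ vlist G, cr (w - (p e.1 - p x)) (p e.2.1 - p e.1) ≠ 0 := by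
    intro e he x hx
    exact hw (p e.1 - p x, p e.2.1 - p e.1) (List.mem_append.2 (Or.inr (List.mem_append.2
      (Or.inr (List.mem_flatMap.2 ⟨e, he, List.mem_map.2 ⟨x, hx, rfl⟩⟩)))))
  have v1 : ∀ e ∈ G, e.1 ∈ vlist G := fun e he => mem_vlist.2 ⟨e, he, Or.inl rfl⟩
  have v2 : ∀ e ∈ G, e.2.1 ∈ vlist G := fun e he => mem_vlist.2 ⟨e, he, Or.inr rfl⟩
  -- no translated vertex is a vertex
  have c4 : ∀ u ∈ vlist G, ∀ v ∈ vlist G, p u ≠ p v + w := by
    intro u hu v hv h
    obtain ⟨e, he, h' | h'⟩ := mem_vlist.1 hv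
    · apply c2 e he u hu
      rw [h, ← h']
      have : w - (p e.1 + w - p e.1) = 0 := by abel
      rw [this]
      simp [cr]
    · apply c2 e he u hu
      rw [h, ← h']
      have : w - (p e.2.1 + w - p e.1) = -(p e.2.1 - p e.1) := by abel
      rw [this]
      simp only [cr, Prod.fst_neg, Prod.snd_neg]
      ring
  let q : ℕ → Pt := fun n => if n % 2 = 0 then p (n / 2) else p (n / 2) + w
  have q0 : ∀ n, q (2 * n) = p n := fun n => by
    have h1 : 2 * n % 2 = 0 := by omega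
    have h2 : 2 * n / 2 = n := by omega
    simp only [q, h1, h2, if_true]
  have q1 : ∀ n, q (2 * n + 1) = p n + w := fun n => by
    have h1 : (2 * n + 1) % 2 ≠ 0 := by omega
    have h2 : (2 * n + 1) / 2 = n := by omega
    simp only [q, h1, h2, if_false]
  let Q : ℕ → Pt := fun c => if c % 3 = 0 then P (c / 3) else if c % 3 = 1 then P (c / 3) + w else
    p (c / 3)
  have Q0 : ∀ n, Q (3 * n) = P n := fun n => by
    have h1 : 3 * n % 3 = 0 := by omega
    have h2 : 3 * n / 3 = n := by omega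
    simp only [Q, h1, h2, if_true]
  have Q1 : ∀ n, Q (3 * n + 1) = P n + w := fun n => by
    have h1 : (3 * n + 1) % 3 = 1 := by omega
    have h2 : (3 * n + 1) / 3 = n := by omega
    simp only [Q, h1, h2, if_true]
    simp
  have Q2 : ∀ n, Q (3 * n + 2) = p n := fun n => by
    have h1 : (3 * n + 2) % 3 = 2 := by omega
    have h2 : (3 * n + 2) / 3 = n := by omega
    simp only [Q, h1, h2]
    simp
  have tr : ∀ A B C : Pt, Col (A + w) (B + w) (C + w) ↔ Col A B C := by
    intro A B C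
    simp only [Col, cr, Prod.fst_sub, Prod.snd_sub, Prod.fst_add, Prod.snd_add]
    constructor <;> intro h <;> linarith
  -- mixed pairs
  have x1 : ∀ u ∈ vlist G, ∀ v ∈ vlist G, v ≠ u → ¬ Col (p v) (p v + w) (p u) := by
    intro u hu v hv hvu h
    apply c1 u hu v hv hvu
    simp only [Col, cr, Prod.fst_sub, Prod.snd_sub, Prod.fst_add, Prod.snd_add, Prod.fst_zero,
      Prod.snd_zero] at h ⊢
    linarith
  have x2 : ∀ e ∈ G, cr w (p e.2.1 - p e.1) ≠ 0 := by
    intro e he h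
    apply c1 e.2.1 (v2 e he) e.1 (v1 e he) (hG.1 e he)
    rwa [sub_zero]
  refine ⟨q, Q, ?_, ?_, ?_⟩
  · have hcase : ∀ n ∈ V (prism G), ∃ v ∈ vlist G, n = 2 * v ∨ n = 2 * v + 1 := by
      rintro n ⟨e, he, hn⟩
      rcases mem_prism.1 he with ⟨a, ha, rfl⟩ | ⟨a, ha, rfl⟩ | ⟨v, hv, rfl⟩
      · rcases hn with rfl | rfl
        · exact ⟨a.1, v1 a ha, Or.inl rfl⟩
        · exact ⟨a.2.1, v2 a ha, Or.inl rfl⟩
      · rcases hn with rfl | rfl
        · exact ⟨a.1, v1 a ha, Or.inr rfl⟩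
        · exact ⟨a.2.1, v2 a ha, Or.inr rfl⟩
      · rcases hn with rfl | rfl
        · exact ⟨v, hv, Or.inl rfl⟩
        · exact ⟨v, hv, Or.inr rfl⟩
    intro m hm n hn hmn
    obtain ⟨u, hu, rfl | rfl⟩ := hcase m hm <;> obtain ⟨v, hv, rfl | rfl⟩ := hcase n hn
    · rw [q0, q0] at hmn
      rw [h1 ((hV u).1 hu) ((hV v).1 hv) hmn]
    · rw [q0, q1] at hmn
      exact absurd hmn (c4 u hu v hv)
    · rw [q0, q1] at hmn
      exact absurd hmn.symm (c4 v hv u hu)
    · rw [q1, q1] at hmn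
      rw [h1 ((hV u).1 hu) ((hV v).1 hv) (add_right_cancel hmn)]
  · intro e he
    rcases mem_prism.1 he with ⟨a, ha, rfl⟩ | ⟨a, ha, rfl⟩ | ⟨v, hv, rfl⟩
    · simp only [e0]
      rw [q0, q0, Q0]
      exact h2 a ha
    · simp only [e1]
      rw [q1, q1, Q1, tr]
      exact h2 a ha
    · simp only [e2]
      rw [q0, q1, Q2]
      exact col_self_left _ _
  · intro e he f hf hef
    rcases mem_prism.1 he with ⟨a, ha, rfl⟩ | ⟨a, ha, rfl⟩ | ⟨a, ha, rfl⟩ <;>
      rcases mem_prism.1 hf with ⟨b, hb, rfl⟩ | ⟨b, hb, rfl⟩ | ⟨b, hb, rfl⟩ <;>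
      simp only [e0, e1, e2] <;> simp only [q0, q1]
    · exact h3 a ha b hb (fun h => hef (by rw [h]))
    · rintro ⟨h, _⟩
      apply c3 a ha b.1 (v1 b hb)
      simp only [Col, cr, Prod.fst_sub, Prod.snd_sub, Prod.fst_add, Prod.snd_add] at h ⊢
      linarith
    · rintro ⟨h, h'⟩
      apply x2 a ha
      simp only [Col, cr, Prod.fst_sub, Prod.snd_sub, Prod.fst_add, Prod.snd_add] at h h' ⊢
      linarith
    · rintro ⟨h, _⟩
      apply c2 a ha b.1 (v1 b hb)
      simp only [Col, cr, Prod.fst_sub, Prod.snd_sub, Prod.fst_add, Prod.snd_add] at h ⊢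
      linarith
    · rw [tr, tr]
      exact h3 a ha b hb (fun h => hef (by rw [h]))
    · rintro ⟨h, h'⟩
      apply x2 a ha
      simp only [Col, cr, Prod.fst_sub, Prod.snd_sub, Prod.fst_add, Prod.snd_add] at h h' ⊢
      linarith
    · rintro ⟨h, h'⟩
      apply x2 b hb
      simp only [Col, cr, Prod.fst_sub, Prod.snd_sub, Prod.fst_add, Prod.snd_add] at h h' ⊢
      linarith
    · rintro ⟨h, h'⟩
      apply x2 b hb
      simp only [Col, cr, Prod.fst_sub, Prod.snd_sub, Prod.fst_add, Prod.snd_add] at h h' ⊢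
      linarith
    · rintro ⟨h, _⟩
      exact x1 b hb a ha (fun h => hef (by rw [h])) h

/-! ### Iteration -/

def prismN : ℕ → CG → CG
  | 0, G => G
  | n + 1, G => prism (prismN n G)

theorem val_prismN {G : CG} (h : Val G) : ∀ n, Val (prismN n G)
  | 0 => h
  | n + 1 => val_prism (val_prismN h n)

theorem reg_prismN {k : ℕ} {G : CG} (h : Reg k G) : ∀ n, Reg (k + n) (prismN n G)
  | 0 => h
  | n + 1 => reg_prism (reg_prismN h n)

theorem fd_prismN {G : CG} (hG : Val G) : ∀ n, (∃ p P, FD (prismN n G) p P) ↔ ∃ p P, FD G p P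
  | 0 => Iff.rfl
  | n + 1 => ⟨fun h => (fd_prismN hG n).1 (fd_of_prism h),
      fun h => fd_prism (val_prismN hG n) ((fd_prismN hG n).2 h)⟩

theorem poly_prismN (n : ℕ) {α : Type} [TEnc α] {G : α → CG} (hG : Poly G) :
    Poly (fun a => prismN n (G a)) := by
  induction n with
  | zero => exact hG
  | succ n ih => exact poly_prism ih

end Pool.Agent.Y376.FA
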